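import Pool.Agent.H484.HH.Stm

/-!
AVG: averaging over the generators.
-/

set_option autoImplicit false

open Finset

namespace Pool.Agent.H484.HH

theorem t_AVG (hCNT : S_CNT) : S_AVG := by
  classical
  intro N _ t φ hφ
  have hN2 : 2 ≤ N := (Fact.out : N.Prime).two_le
  have hN : (2 : ℝ) ≤ N := by exact_mod_cast hN2
  have hN1 : (0 : ℝ) < (N : ℝ) - 1 := by linarith
  have hN0 : (0 : ℝ) < (N : ℝ) := by linarith
  have hpow : (0 : ℝ) ≤ ((N : ℝ) - 1) ^ t := by positivity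
  -- the number of the generators
  have hcard : ∀ (k : Fin t → ZMod N) (r : ZMod N), k ≠ 0 →
      ((univ.filter fun h : Fin t → (ZMod N)ˣ => -(∑ i, k i * (h i : ZMod N)) = r).card : ℝ) ≤
        ((N : ℝ) - 1) ^ t * (2 / N) := by
    intro k r hk
    have h1 := hCNT N t k r hk
    rw [← le_div_iff₀ hN1] at h1
    refine h1.trans ?_
    rw [div_eq_mul_inv]
    refine mul_le_mul_of_nonneg_left ?_ hpow
    rw [inv_eq_one_div, div_le_div_iff₀ hN1 hN0]
    linarith
  have hone : ∀ k : Fin t → ZMod N, k ≠ 0 →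
      ∑ h : Fin t → (ZMod N)ˣ, φ (-(∑ i, k i * (h i : ZMod N))) k ≤
        ((N : ℝ) - 1) ^ t * (2 / N) * ∑ r : ZMod N, φ r k := by
    intro k hk
    rw [← Finset.sum_fiberwise (univ : Finset (Fin t → (ZMod N)ˣ))
      (fun h => -(∑ i, k i * (h i : ZMod N))), Finset.mul_sum]
    refine Finset.sum_le_sum fun r _ => ?_
    have h1 : ∑ h ∈ univ.filter (fun h : Fin t → (ZMod N)ˣ => -(∑ i, k i * (h i : ZMod N)) = r),
        φ (-(∑ i, k i * (h i : ZMod N))) k =
        ((univ.filter fun h : Fin t → (ZMod N)ˣ =>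
          -(∑ i, k i * (h i : ZMod N)) = r).card : ℝ) * φ r k := by
      rw [← nsmul_eq_mul, ← Finset.sum_const]
      refine Finset.sum_congr rfl fun h hh => ?_
      rw [(Finset.mem_filter.1 hh).2]
    rw [h1]
    exact mul_le_mul_of_nonneg_right (hcard k r hk) (hφ r k)
  rw [Finset.sum_comm]
  calc ∑ k ∈ univ.filter (fun k : Fin t → ZMod N => k ≠ 0), ∑ h : Fin t → (ZMod N)ˣ,
        φ (-(∑ i, k i * (h i : ZMod N))) k
      ≤ ∑ k ∈ univ.filter (fun k : Fin t → ZMod N => k ≠ 0),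
          ((N : ℝ) - 1) ^ t * (2 / N) * ∑ r : ZMod N, φ r k :=
        Finset.sum_le_sum fun k hk => hone k (Finset.mem_filter.1 hk).2
    _ ≤ ∑ k : Fin t → ZMod N, ((N : ℝ) - 1) ^ t * (2 / N) * ∑ r : ZMod N, φ r k := by
        refine Finset.sum_le_sum_of_subset_of_nonneg (Finset.filter_subset _ _) fun k _ _ => ?_
        exact mul_nonneg (mul_nonneg hpow (by positivity)) (Finset.sum_nonneg fun r _ => hφ r k)
    _ = ((N : ℝ) - 1) ^ t * (2 / N) * ∑ k : Fin t → ZMod N, ∑ r : ZMod N, φ r k := by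
        rw [Finset.mul_sum]

end Pool.Agent.H484.HH
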